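import Pool.Agent.W254.LF.Stm

/-! LF-RAM (helper542): analytic parametrisation of the roots near every value of the parameter. -/

set_option autoImplicit false

namespace Pool.Agent.W542.LF

open Polynomial Filter Topology

section

variable {K : Type} [NontriviallyNormedField K] [CompleteSpace K] [CharZero K]

/-- inverse function theorem -/
theorem inv_fun (f : K → K) (a : K) (hf : AnalyticAt K f a) (h : deriv f a ≠ 0) :
    ∃ g : K → K, AnalyticAt K g (f a) ∧ g (f a) = a ∧ ∀ᶠ y in 𝓝 (f a), f (g y) = y :=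
  ⟨_, hf.analyticAt_localInverse h, HasStrictFDerivAt.localInverse_apply_image ..,
    HasStrictDerivAt.eventually_right_inverse ..⟩

/-- analytic roots -/
theorem nth_root [IsAlgClosed K] (n : ℕ) (hn : 0 < n) (g : K → K) (ρ : K) (hg : AnalyticAt K g ρ)
    (h0 : g ρ ≠ 0) : ∃ r : K → K, AnalyticAt K r ρ ∧ r ρ ≠ 0 ∧ ∀ᶠ x in 𝓝 ρ, r x ^ n = g x := by
  obtain ⟨γ, hγ⟩ := IsAlgClosed.exists_pow_nat_eq (g ρ) hn
  have hγ0 : γ ≠ 0 := by
    intro h
    rw [h, zero_pow hn.ne'] at hγ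
    exact h0 hγ.symm
  have hd : deriv (fun z : K => z ^ n) γ ≠ 0 := by
    have : deriv (fun z : K => z ^ n) γ = n * γ ^ (n - 1) := by simp
    rw [this]
    exact mul_ne_zero (by exact_mod_cast hn.ne') (pow_ne_zero _ hγ0)
  obtain ⟨R, hR1, hR2, hR3⟩ := inv_fun (fun z : K => z ^ n) γ (by fun_prop) hd
  simp only [hγ] at hR1 hR2 hR3
  refine ⟨fun x => R (g x), hR1.comp hg, ?_, ?_⟩
  · simp only
    rw [hR2]
    exact hγ0
  · exact hg.continuousAt.eventually hR3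

/-- the local branch at a root of multiplicity `n` -/
theorem branch [IsAlgClosed K] (P : K[X]) (t₀ ρ : K) (F0 G : K[X]) (n : ℕ) (hn : 0 < n)
    (hF0 : F0 = (X - C t₀) * P - 1) (hG : F0 = (X - C ρ) ^ n * G) (hGρ : G.eval ρ ≠ 0) :
    ∃ ψ h : K → K, AnalyticAt K ψ 0 ∧ ψ 0 = ρ ∧ (∀ᶠ w in 𝓝 (0 : K), h (ψ w) = w) ∧
      ∀ᶠ w in 𝓝 (0 : K), (ψ w - (t₀ + w ^ n)) * P.eval (ψ w) = 1 := by
  have hroot : F0.eval ρ = 0 := by
    rw [hG]
    simp [hn.ne']
  have hPρ : P.eval ρ ≠ 0 := by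
    intro h
    rw [hF0] at hroot
    simp [h] at hroot
  have haP : ∀ (Q : K[X]) (x : K), AnalyticAt K (fun z => Q.eval z) x := by
    intro Q x
    have h := AnalyticAt.aeval_polynomial (f := fun z : K => z) (analyticAt_id (𝕜 := K) (z := x)) Q
    simpa [coe_aeval_eq_eval] using h
  have hg : AnalyticAt K (fun x => G.eval x / P.eval x) ρ := (haP G ρ).div (haP P ρ) hPρ
  obtain ⟨r, hr1, hr2, hr3⟩ := nth_root n hn _ ρ hg (div_ne_zero hGρ hPρ)
  set h : K → K := fun x => (x - ρ) * r x with hh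
  have hha : AnalyticAt K h ρ := (analyticAt_id.sub analyticAt_const).mul hr1
  have hhρ : h ρ = 0 := by simp [hh]
  have hd : deriv h ρ ≠ 0 := by
    have h1 : HasDerivAt h (1 * r ρ + (ρ - ρ) * deriv r ρ) ρ :=
      ((hasDerivAt_id ρ).sub_const ρ).mul hr1.differentiableAt.hasDerivAt
    rw [h1.deriv]
    simpa using hr2
  obtain ⟨ψ, hψ1, hψ2, hψ3⟩ := inv_fun h ρ hha hd
  rw [hhρ] at hψ1 hψ2 hψ3
  refine ⟨ψ, h, hψ1, hψ2, hψ3, ?_⟩
  have hcont : Tendsto ψ (𝓝 0) (𝓝 ρ) := by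
    have := hψ1.continuousAt.tendsto
    rwa [hψ2] at this
  have e1 : ∀ᶠ w in 𝓝 (0 : K), r (ψ w) ^ n = G.eval (ψ w) / P.eval (ψ w) :=
    hcont.eventually hr3
  have e2 : ∀ᶠ w in 𝓝 (0 : K), P.eval (ψ w) ≠ 0 := by
    have : ∀ᶠ x in 𝓝 ρ, P.eval x ≠ 0 := (haP P ρ).continuousAt.eventually_ne hPρ
    exact hcont.eventually this
  filter_upwards [hψ3, e1, e2] with w h1 h2 h3
  have h4 : w ^ n * P.eval (ψ w) = F0.eval (ψ w) := by
    have h5 : w ^ n = (h (ψ w)) ^ n := by rw [h1]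
    rw [h5, hG, hh]
    simp only [eval_mul, eval_pow, eval_sub, eval_X, eval_C]
    rw [mul_pow, h2]
    field_simp
  rw [hF0] at h4
  simp only [eval_mul, eval_sub, eval_X, eval_C, eval_one] at h4
  linear_combination -h4

end

/-- **LF-RAM** -/
theorem t_RAM : Pool.Agent.W254.LF.S_RAM := by
  intro K _ _ _ _ m α t₀
  classical
  set P : K[X] := ∏ i, (X - C (α i)) with hP
  have hPm : P.Monic := monic_prod_of_monic _ _ fun i _ => monic_X_sub_C _
  have hPd : P.natDegree = m := by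
    rw [hP, natDegree_prod_of_monic _ _ fun i _ => monic_X_sub_C _]
    simp
  set F0 : K[X] := (X - C t₀) * P - 1 with hF0
  have hXP : ((X - C t₀) * P).natDegree = m + 1 := by
    rw [Monic.natDegree_mul (monic_X_sub_C _) hPm, natDegree_X_sub_C, hPd, add_comm]
  have hF0d : F0.natDegree = m + 1 := by
    rw [hF0, natDegree_sub_eq_left_of_natDegree_lt]
    · exact hXP
    · rw [hXP, natDegree_one]
      omega
  have hF0ne : F0 ≠ 0 := by
    intro h
    rw [h, natDegree_zero] at hF0d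
    omega
  have hcard : Fintype.card F0.roots = m + 1 := by
    rw [Multiset.card_coe, IsAlgClosed.card_roots_eq_natDegree, hF0d]
  -- multiplicities
  set nu : K → ℕ := fun ρ => F0.roots.count ρ with hnu
  have hnu_le : ∀ ρ, nu ρ ≤ m + 1 := by
    intro ρ
    rw [← hF0d, ← IsAlgClosed.card_roots_eq_natDegree]
    exact Multiset.count_le_card _ _
  -- branches
  have hbr : ∀ ρ : K, 0 < nu ρ → ∃ ψ h : K → K, AnalyticAt K ψ 0 ∧ ψ 0 = ρ ∧
      (∀ᶠ w in 𝓝 (0 : K), h (ψ w) = w) ∧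
      ∀ᶠ w in 𝓝 (0 : K), (ψ w - (t₀ + w ^ nu ρ)) * P.eval (ψ w) = 1 := by
    intro ρ hρ
    obtain ⟨G, hG1, hG2⟩ := exists_eq_pow_rootMultiplicity_mul_and_not_dvd F0 hF0ne ρ
    rw [← count_roots] at hG1
    refine branch P t₀ ρ F0 G (nu ρ) hρ hF0 hG1 ?_
    intro h
    exact hG2 (dvd_iff_isRoot.2 h)
  choose! ψ h hψ1 hψ2 hψ3 hψ4 using hbr
  have hz : ∀ ρ : K, 0 < nu ρ → ∃ ζ : K, IsPrimitiveRoot ζ (nu ρ) := by
    intro ρ hρ
    have : NeZero (nu ρ) := ⟨hρ.ne'⟩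
    have : NeZero ((nu ρ : ℕ) : K) := ⟨by exact_mod_cast hρ.ne'⟩
    exact HasEnoughRootsOfUnity.exists_primitiveRoot K (nu ρ)
  choose! ζ hζ using hz
  set e : Fin (m + 1) ≃ F0.roots := (Fintype.equivFinOfCardEq hcard).symm with he
  set M : ℕ := (m + 1).factorial with hM
  have hMpos : 0 < M := Nat.factorial_pos _
  have hdvd : ∀ ρ, 0 < nu ρ → nu ρ ∣ M := fun ρ hρ => Nat.dvd_factorial hρ (hnu_le ρ)
  have hpos : ∀ j : F0.roots, 0 < nu (j : K) := fun j => Multiset.count_pos.2 (Multiset.coe_mem)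
  have hq : ∀ j : F0.roots, 0 < M / nu (j : K) := fun j =>
    Nat.div_pos (Nat.le_of_dvd hMpos (hdvd _ (hpos j))) (hpos j)
  have hqM : ∀ j : F0.roots, (M / nu (j : K)) * nu (j : K) = M := fun j =>
    Nat.div_mul_cancel (hdvd _ (hpos j))
  -- the inner function
  set a : F0.roots → K → K := fun j s => ζ (j : K) ^ (j.2 : ℕ) * s ^ (M / nu (j : K)) with ha
  have ha0 : ∀ j, a j 0 = 0 := by
    intro j
    simp only [ha]
    rw [zero_pow (hq j).ne', mul_zero]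
  have haan : ∀ j s, AnalyticAt K (a j) s := by
    intro j s
    simp only [ha]
    fun_prop
  have hatend : ∀ j, Tendsto (a j) (𝓝 0) (𝓝 0) := by
    intro j
    have := (haan j 0).continuousAt.tendsto
    rwa [ha0] at this
  have hapow : ∀ j s, a j s ^ nu (j : K) = s ^ M := by
    intro j s
    simp only [ha]
    rw [mul_pow, ← pow_mul, ← pow_mul, hqM j, mul_comm (j.2 : ℕ), pow_mul,
      (hζ _ (hpos j)).pow_eq_one, one_pow, one_mul]
  refine ⟨M, fun i s => ψ (e i : K) (a (e i) s), hMpos, ?_, ?_, ?_⟩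
  · intro i
    refine AnalyticAt.fun_comp ?_ (haan (e i) 0)
    rw [ha0]
    exact hψ1 _ (hpos (e i))
  · intro i
    have h4 := (hatend (e i)).eventually (hψ4 _ (hpos (e i)))
    filter_upwards [h4] with s hs
    rw [hapow] at hs
    rw [hP] at hs
    simpa [eval_prod] using hs
  · intro i j hij hcon
    replace hcon : ∀ᶠ s in 𝓝 (0 : K), ψ (e i : K) (a (e i) s) = ψ (e j : K) (a (e j) s) := hcon
    have h0 := hcon.self_of_nhds
    simp only [ha0] at h0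
    rw [hψ2 _ (hpos (e i)), hψ2 _ (hpos (e j))] at h0
    -- same root
    have hne : e i ≠ e j := fun h => hij (e.injective h)
    generalize hx : e i = x at *
    generalize hy : e j = y at *
    obtain ⟨ρ, k⟩ := x
    obtain ⟨ρ', l⟩ := y
    change ρ = ρ' at h0
    subst h0
    have hkl : (k : ℕ) ≠ (l : ℕ) := by
      intro hkl
      exact hne (by rw [Fin.ext hkl])
    have hρ : 0 < nu ρ := lt_of_le_of_lt (Nat.zero_le _) k.2
    have h5 := (hatend ⟨ρ, k⟩).eventually (hψ3 ρ hρ)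
    have h6 := (hatend ⟨ρ, l⟩).eventually (hψ3 ρ hρ)
    have h7 : ∀ᶠ s in 𝓝 (0 : K), a ⟨ρ, k⟩ s = a ⟨ρ, l⟩ s := by
      filter_upwards [hcon, h5, h6] with s hs hs5 hs6
      rw [← hs5, ← hs6]
      exact congrArg (h ρ) hs
    have h8 : ∃ s : K, s ≠ 0 ∧ a ⟨ρ, k⟩ s = a ⟨ρ, l⟩ s := by
      have h9 : ∀ᶠ s in 𝓝[≠] (0 : K), a ⟨ρ, k⟩ s = a ⟨ρ, l⟩ s := h7.filter_mono nhdsWithin_le_nhds
      obtain ⟨s, hs1, hs2⟩ := (h9.and self_mem_nhdsWithin).exists
      exact ⟨s, hs2, hs1⟩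
    obtain ⟨s, hs0, hs⟩ := h8
    simp only [ha] at hs
    have hs' : ζ ρ ^ (k : ℕ) = ζ ρ ^ (l : ℕ) :=
      mul_right_cancel₀ (pow_ne_zero _ hs0) hs
    exact hkl ((hζ ρ hρ).pow_inj k.2 l.2 hs')

end Pool.Agent.W542.LF
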